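import Pool.Agent.Q186.PF.Asm
import Pool.Agent.Q186.PF.TaskD
import Pool.Agent.Q186.PF.TaskOpt
import Pool.Agent.Q186.PF.TaskPsi

set_option autoImplicit false

/-!
# Continuum many beta-expansions with prescribed digit frequencies

Let `β > 1` be a non-integer, `m = ⌊β⌋`, `I = [0, m / (β - 1)]`, and let numbers `P k`, `p k` be given
for the digits `k ≤ m`. If Lebesgue almost every `x` in `I` has a `β`-expansion in which every digit
`k` has upper frequency `P k` and lower frequency `p k`, then almost every `x` has a continuum of them.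

Proof. Fix a stage `j`. The words of length `n` which are controlled (from the place `C` on the
frequencies are in `[p k - 1/(j+1), P k + 1/(j+1)]`, and both ends are nearly attained at late
places) have cylinders, intervals of length `β^{-n} |I|`, which cover nearly all of `I`. Keeping for
every mesh of this length the two extreme ones, one gets at most `4 β^n` words with the same union;
so the map which follows these words does not increase Lebesgue measure by more than the factor `5`,
*uniformly in `n`*. By the Lebesgue density theorem almost every point of `I` can be led to the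
points `z` where both digits `0` and `1` are allowed. A stage consists of a word of bounded length
`R` leading to such a point, a digit `0` or `1` chosen by a coin, and a long controlled word. As the
factor of a stage does not depend on `n`, one can choose `R_j`, `C_j` first and the lengths `n_j`
afterwards, and the Borel-Cantelli lemma over all `2^j` words of coins shows that, for almost
every `x`, from some stage on all sequences of coins give expansions with the prescribed frequencies.
-/

namespace Pool.Agent.Results.MP_d4a354_an.ContinuumOfPrescribed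

open MeasureTheory Filter Topology Set

/-- `ε = (ε_1, ε_2, ...)` (indexed from `0`) is a `β`-expansion of `x` over `{0, ..., ⌊β⌋}` -/
def IsExpansion (β x : ℝ) (ε : ℕ → ℕ) : Prop :=
  (∀ i, ε i ≤ ⌊β⌋₊) ∧ HasSum (fun i => (ε i : ℝ) / β ^ (i + 1)) x

/-- the proportion of the digit `k` among the first `n` digits of `ε` -/
noncomputable def prop (ε : ℕ → ℕ) (k n : ℕ) : ℝ :=
  (((Finset.range n).filter (fun i => ε i = k)).card : ℝ) / n

/-- the upper frequency of the digit `k` -/
noncomputable def upperFreq (ε : ℕ → ℕ) (k : ℕ) : ℝ := limsup (fun n => prop ε k n) atTop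

/-- the lower frequency of the digit `k` -/
noncomputable def lowerFreq (ε : ℕ → ℕ) (k : ℕ) : ℝ := liminf (fun n => prop ε k n) atTop

/-- `E_β(x; P, p)`: the expansions of `x` of frequency `(P, p)`; the vectors `P`, `p` are indexed
by the digits `0, ..., ⌊β⌋` -/
def E (β : ℝ) (P p : Fin (⌊β⌋₊ + 1) → ℝ) (x : ℝ) : Set (ℕ → ℕ) :=
  {ε | IsExpansion β x ε ∧ ∀ k : Fin (⌊β⌋₊ + 1), upperFreq ε k = P k ∧ lowerFreq ε k = p k}

open Pool.Agent.Q186.PF in
theorem result : ∀ β : ℝ, 1 < β → (∀ k : ℕ, (k : ℝ) ≠ β) →
    ∀ P p : Fin (⌊β⌋₊ + 1) → ℝ,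
      ((∀ᵐ x ∂(volume.restrict (Icc 0 ((⌊β⌋₊ : ℝ) / (β - 1)))), (E β P p x).Nonempty) ↔
        (∀ᵐ x ∂(volume.restrict (Icc 0 ((⌊β⌋₊ : ℝ) / (β - 1)))),
          Cardinal.mk (E β P p x) = Cardinal.continuum)) := by
  intro β hβ _ P p
  have hpar : Par β ⌊β⌋₊ := ⟨hβ, Nat.lt_floor_add_one β, Nat.floor_le (by linarith)⟩
  set P' : ℕ → ℝ := fun k => if h : k < ⌊β⌋₊ + 1 then P ⟨k, h⟩ else 0 with hP'
  set p' : ℕ → ℝ := fun k => if h : k < ⌊β⌋₊ + 1 then p ⟨k, h⟩ else 0 with hp'
  have hE : ∀ x, E β P p x = {e : ℕ → ℕ | IsExp β ⌊β⌋₊ x e ∧ FB ⌊β⌋₊ P' p' e} := by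
    intro x
    ext e
    constructor
    · rintro ⟨h1, h2⟩
      refine ⟨h1, fun k hk => ?_⟩
      have h3 := h2 ⟨k, Nat.lt_succ_of_le hk⟩
      have e1 : P' k = P ⟨k, Nat.lt_succ_of_le hk⟩ := by
        rw [hP']; exact dif_pos (Nat.lt_succ_of_le hk)
      have e2 : p' k = p ⟨k, Nat.lt_succ_of_le hk⟩ := by
        rw [hp']; exact dif_pos (Nat.lt_succ_of_le hk)
      rw [e1, e2]
      exact h3
    · rintro ⟨h1, h2⟩
      refine ⟨h1, fun k => ?_⟩
      have h3 := h2 k (Nat.lt_succ_iff.1 k.2)
      have e1 : P' k = P k := by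
        rw [hP']; exact dif_pos k.2
      have e2 : p' k = p k := by
        rw [hp']; exact dif_pos k.2
      rw [e1, e2] at h3
      exact h3
  constructor
  · intro h
    have h1 := final taskOpt taskPsi taskD hpar (P := P') (p := p') (by
      filter_upwards [h] with x hx
      obtain ⟨e, he⟩ := hx
      rw [hE] at he
      exact ⟨e, he⟩)
    filter_upwards [h1] with x hx
    rw [hE]
    exact hx
  · intro h
    filter_upwards [h] with x hx
    by_contra hne
    rw [Set.not_nonempty_iff_eq_empty] at hne
    rw [hne, Cardinal.mk_eq_zero] at hx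
    exact Cardinal.continuum_ne_zero hx.symm

end Pool.Agent.Results.MP_d4a354_an.ContinuumOfPrescribed
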